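import Pool.Agent.Y862.SQ.Stm

/-! Job SQ-TAIL for helper862: the tail of the singular series of a set
(adapted from the starting file TH464/PO/Sing). -/

set_option autoImplicit false

namespace Pool.Agent.Y420.SQ

open Finset Pool.Agent.Y862.SQ

/-! ### elementary inequalities -/

theorem single_le_prod_one {ι : Type*} (s : Finset ι) (f : ι → ℝ) (hf : ∀ i ∈ s, 1 ≤ f i) (i : ι)
    (hi : i ∈ s) : f i ≤ ∏ j ∈ s, f j := by
  classical
  have h : ∏ j ∈ {i}, f j ≤ ∏ j ∈ s, f j := by
    apply Finset.prod_le_prod_of_subset_of_one_le (by simpa using hi)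
    · intro j hj
      rw [mem_singleton] at hj
      rw [hj]
      linarith [hf i hi]
    · intro j hj _
      exact hf j hj
  simpa using h

theorem prod_sub_one_le {ι : Type*} (s : Finset ι) (f : ι → ℝ) (hf : ∀ i ∈ s, 1 ≤ f i) (M : ℕ)
    (hM : s.card ≤ M) : ∏ i ∈ s, f i - 1 ≤ ∑ i ∈ s, (f i ^ M - 1) := by
  rcases s.eq_empty_or_nonempty with h | h
  · rw [h]; simp
  · obtain ⟨i, hi, hmax⟩ := Finset.exists_max_image s f h
    have h1 : ∏ j ∈ s, f j ≤ f i ^ s.card := by
      rw [← Finset.prod_const]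
      exact Finset.prod_le_prod (fun j hj => by linarith [hf j hj]) hmax
    have h2 : f i ^ s.card ≤ f i ^ M := pow_le_pow_right₀ (hf i hi) hM
    have h3 : f i ^ M - 1 ≤ ∑ i ∈ s, (f i ^ M - 1) :=
      Finset.single_le_sum (f := fun i => f i ^ M - 1) (fun j hj => by
        have := one_le_pow₀ (hf j hj) (n := M)
        linarith) hi
    linarith

theorem pow_factor (K M : ℕ) (x : ℝ) (h0 : 0 ≤ x) (h1 : x ≤ 1) :
    (1 + K * x) ^ M ≤ 1 + (((1 + K) ^ M - 1 : ℕ) : ℝ) * x := by
  have hcast : ∀ M : ℕ, (((1 + K) ^ M - 1 : ℕ) : ℝ) = (1 + (K : ℝ)) ^ M - 1 := by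
    intro M
    rw [Nat.cast_sub (Nat.one_le_pow _ _ (by omega))]
    push_cast
    ring
  rw [hcast]
  induction M with
  | zero => simp
  | succ M ih =>
    have hK : (0 : ℝ) ≤ K := Nat.cast_nonneg K
    have h3 : (1 : ℝ) ≤ (1 + (K : ℝ)) ^ M := one_le_pow₀ (by linarith)
    have h4 : x * x ≤ x := by nlinarith
    have h5 : ((1 + (K : ℝ)) ^ M - 1) * K * (x * x) ≤ ((1 + (K : ℝ)) ^ M - 1) * K * x :=
      mul_le_mul_of_nonneg_left h4 (mul_nonneg (by linarith) hK)
    calc (1 + K * x) ^ (M + 1) = (1 + K * x) ^ M * (1 + K * x) := pow_succ _ _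
      _ ≤ (1 + ((1 + (K : ℝ)) ^ M - 1) * x) * (1 + K * x) :=
        mul_le_mul_of_nonneg_right ih (by positivity)
      _ = 1 + K * x + ((1 + (K : ℝ)) ^ M - 1) * x + ((1 + (K : ℝ)) ^ M - 1) * K * (x * x) := by ring
      _ ≤ 1 + ((1 + (K : ℝ)) ^ (M + 1) - 1) * x := by
        rw [pow_succ]
        linarith

theorem prod_one_sub_ge {ι : Type*} (s : Finset ι) (f : ι → ℝ) (h0 : ∀ i ∈ s, 0 ≤ f i)
    (h1 : ∀ i ∈ s, f i ≤ 1) : 1 - ∑ i ∈ s, f i ≤ ∏ i ∈ s, (1 - f i) := by
  classical
  induction s using Finset.induction_on with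
  | empty => simp
  | insert a s ha ih =>
    rw [Finset.sum_insert ha, Finset.prod_insert ha]
    have h2 := ih (fun i hi => h0 i (mem_insert_of_mem hi)) (fun i hi => h1 i (mem_insert_of_mem hi))
    have h3 : 0 ≤ f a := h0 a (mem_insert_self _ _)
    have h4 : f a ≤ 1 := h1 a (mem_insert_self _ _)
    have h5 : 0 ≤ ∑ i ∈ s, f i := Finset.sum_nonneg fun i hi => h0 i (mem_insert_of_mem hi)
    calc 1 - (f a + ∑ i ∈ s, f i) ≤ (1 - f a) * (1 - ∑ i ∈ s, f i) := by nlinarith
      _ ≤ _ := mul_le_mul_of_nonneg_left h2 (by linarith)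

theorem prod_one_sub_le {ι : Type*} (s : Finset ι) (f : ι → ℝ) (h0 : ∀ i ∈ s, 0 ≤ f i)
    (h1 : ∀ i ∈ s, f i ≤ 1) :
    ∏ i ∈ s, (1 - f i) ≤ 1 - ∑ i ∈ s, f i + (∑ i ∈ s, f i) ^ 2 / 2 := by
  classical
  induction s using Finset.induction_on with
  | empty => simp
  | insert a s ha ih =>
    rw [Finset.sum_insert ha, Finset.prod_insert ha]
    have h2 := ih (fun i hi => h0 i (mem_insert_of_mem hi)) (fun i hi => h1 i (mem_insert_of_mem hi))
    have h3 : 0 ≤ f a := h0 a (mem_insert_self _ _)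
    have h4 : f a ≤ 1 := h1 a (mem_insert_self _ _)
    have h5 : 0 ≤ ∑ i ∈ s, f i := Finset.sum_nonneg fun i hi => h0 i (mem_insert_of_mem hi)
    calc (1 - f a) * ∏ i ∈ s, (1 - f i) ≤
        (1 - f a) * (1 - ∑ i ∈ s, f i + (∑ i ∈ s, f i) ^ 2 / 2) :=
          mul_le_mul_of_nonneg_left h2 (by linarith)
      _ ≤ _ := by nlinarith [mul_nonneg h3 (sq_nonneg (∑ i ∈ s, f i)), sq_nonneg (f a)]

theorem sum_inv_sq (w T : ℕ) (hw : 1 ≤ w) :
    ∑ n ∈ (Icc 1 T).filter (fun n => w < n), 1 / (n : ℝ) ^ 2 ≤ 1 / (w : ℝ) := by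
  have hw0 : (0 : ℝ) < w := by exact_mod_cast hw
  rcases le_or_gt T w with h | h
  · have : (Icc 1 T).filter (fun n => w < n) = ∅ := by
      rw [Finset.filter_eq_empty_iff]
      intro n hn
      rw [mem_Icc] at hn
      omega
    rw [this, Finset.sum_empty]
    positivity
  · have key : ∀ T : ℕ, w ≤ T → ∑ n ∈ (Icc 1 T).filter (fun n => w < n), 1 / (n : ℝ) ^ 2 ≤
        1 / (w : ℝ) - 1 / (T : ℝ) := by
      intro T hT
      induction T, hT using Nat.le_induction with
      | base =>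
        have : (Icc 1 w).filter (fun n => w < n) = ∅ := by
          rw [Finset.filter_eq_empty_iff]
          intro n hn
          rw [mem_Icc] at hn
          omega
        rw [this, Finset.sum_empty]
        simp
      | succ T hT ih =>
        have e : (Icc 1 (T + 1)).filter (fun n => w < n) =
            insert (T + 1) ((Icc 1 T).filter (fun n => w < n)) := by
          ext n
          rw [mem_insert, mem_filter, mem_filter, mem_Icc, mem_Icc]
          omega
        rw [e, Finset.sum_insert (by rw [mem_filter, mem_Icc]; omega)]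
        have hT0 : (0 : ℝ) < T := by exact_mod_cast (by omega : 0 < T)
        have h1 : 1 / (((T + 1 : ℕ) : ℝ)) ^ 2 ≤ 1 / (T : ℝ) - 1 / ((T + 1 : ℕ) : ℝ) := by
          push_cast
          rw [div_sub_div _ _ (by positivity) (by positivity), div_le_div_iff₀ (by positivity)
            (by positivity)]
          nlinarith
        linarith
    have h1 := key T h.le
    have : (0 : ℝ) ≤ 1 / (T : ℝ) := by positivity
    linarith

/-! ### one prime -/

theorem mem_pr {y p : ℕ} : p ∈ pr y ↔ p ≤ y ∧ p.Prime := by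
  unfold pr
  rw [mem_filter, mem_Icc]
  constructor
  · rintro ⟨⟨_, h⟩, h2⟩
    exact ⟨h, h2⟩
  · rintro ⟨h, h2⟩
    exact ⟨⟨h2.one_lt.le, h⟩, h2⟩

/-- the number of the classes of one element -/
theorem rH_single (h p : ℕ) (hp : p.Prime) (hp2 : p ≠ 2) : (rH {h} p : ℤ) = leg h p + 1 := by
  have : Fact p.Prime := ⟨hp⟩
  have h1 := legendreSym.card_sqrts p hp2 (-(h : ℤ))
  unfold leg
  rw [← jacobiSym.legendreSym.to_jacobiSym, ← h1]
  congr 1
  unfold rH
  apply Finset.card_nbij' (fun r : ℕ => (r : ZMod p)) (fun x : ZMod p => x.val)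
  · intro r hr
    rw [mem_coe, mem_filter] at hr
    obtain ⟨_, h', hh', hd⟩ := hr
    rw [mem_singleton] at hh'
    rw [mem_coe, Set.mem_toFinset]
    show (r : ZMod p) ^ 2 = ((-(h : ℤ) : ℤ) : ZMod p)
    rw [hh', ← ZMod.natCast_eq_zero_iff] at hd
    push_cast at hd ⊢
    exact eq_neg_of_add_eq_zero_left hd
  · intro x hx
    rw [mem_coe, Set.mem_toFinset] at hx
    have hx' : x ^ 2 = ((-(h : ℤ) : ℤ) : ZMod p) := hx
    rw [mem_coe, mem_filter, mem_range]
    refine ⟨ZMod.val_lt x, h, mem_singleton_self h, ?_⟩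
    rw [← ZMod.natCast_eq_zero_iff]
    push_cast
    rw [ZMod.natCast_val, ZMod.cast_id', id, hx']
    push_cast
    ring
  · intro r hr
    rw [mem_coe, mem_filter, mem_range] at hr
    exact ZMod.val_cast_of_lt hr.1
  · intro x _
    simp

/-- a collision -/
def Cl (H : Finset ℕ) (p : ℕ) : Prop := ∃ a ∈ H, ∃ b ∈ H, a < b ∧ p ∣ b - a

theorem rH_biUnion (H : Finset ℕ) (p : ℕ) :
    (range p).filter (fun r => ∃ h ∈ H, p ∣ r ^ 2 + h) =
      H.biUnion (fun h => (range p).filter (fun r => ∃ h' ∈ ({h} : Finset ℕ), p ∣ r ^ 2 + h')) := by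
  ext r
  simp only [mem_filter, mem_biUnion, mem_range, mem_singleton, exists_eq_left]
  constructor
  · rintro ⟨hr1, h, hh, hq⟩
    exact ⟨h, hh, hr1, hq⟩
  · rintro ⟨h, hh, hr1, hq⟩
    exact ⟨hr1, h, hh, hq⟩

theorem rH_le (H : Finset ℕ) (p : ℕ) : rH H p ≤ ∑ h ∈ H, rH {h} p := by
  unfold rH
  rw [rH_biUnion]
  exact card_biUnion_le

theorem rH_eq (H : Finset ℕ) (p : ℕ) (h : ¬ Cl H p) : rH H p = ∑ h ∈ H, rH {h} p := by
  unfold rH
  rw [rH_biUnion]
  apply card_biUnion
  intro a ha b hb hab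
  rw [Function.onFun, Finset.disjoint_left]
  intro r hr hr'
  simp only [mem_filter, mem_range, mem_singleton, exists_eq_left] at hr hr'
  apply h
  rcases Nat.lt_or_gt_of_ne hab with h2 | h2
  · refine ⟨a, ha, b, hb, h2, ?_⟩
    have h3 := Nat.dvd_sub hr'.2 hr.2
    rwa [Nat.add_sub_add_left] at h3
  · refine ⟨b, hb, a, ha, h2, ?_⟩
    have h3 := Nat.dvd_sub hr.2 hr'.2
    rwa [Nat.add_sub_add_left] at h3

/-- the factor of one element -/
theorem fac (h p : ℕ) (hp : p.Prime) (hp2 : p ≠ 2) :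
    1 - (rH {h} p : ℝ) / p = (1 - 1 / (p : ℝ)) * (1 - (leg h p : ℝ) / ((p : ℝ) - 1)) := by
  have h1 : (rH {h} p : ℝ) = (leg h p : ℝ) + 1 := by
    have := rH_single h p hp hp2
    exact_mod_cast this
  have hp0 : (p : ℝ) ≠ 0 := by exact_mod_cast hp.ne_zero
  have hp1 : (p : ℝ) - 1 ≠ 0 := by
    have : (1 : ℝ) < p := by exact_mod_cast hp.one_lt
    linarith
  rw [h1]
  field_simp
  ring

theorem rH_single_le (h p : ℕ) (hp : p.Prime) (hp2 : p ≠ 2) : (rH {h} p : ℝ) ≤ 2 := by
  have h1 := rH_single h p hp hp2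
  have h2 : leg h p ≤ 1 := by
    unfold leg
    rcases jacobiSym.trichotomy (-(h : ℤ)) p with h | h | h <;> rw [h] <;> norm_num
  have h3 : (rH {h} p : ℤ) ≤ 2 := by omega
  exact_mod_cast h3

section one

variable (H : Finset ℕ) (p : ℕ)

theorem base (hp : p.Prime) (hbig : 4 * H.card + 2 < p) :
    (∀ h ∈ H, 0 ≤ (rH {h} p : ℝ) / p) ∧ (∀ h ∈ H, (rH {h} p : ℝ) / p ≤ 1) ∧
    ∑ h ∈ H, (rH {h} p : ℝ) / p ≤ 2 * (H.card : ℝ) / p ∧ 2 * (H.card : ℝ) / p ≤ 1 / 2 := by
  have hp0 : (0 : ℝ) < p := by exact_mod_cast hp.pos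
  have hp2 : p ≠ 2 := by omega
  have h2p : (2 : ℝ) ≤ p := by exact_mod_cast hp.two_le
  refine ⟨fun h _ => by positivity, fun h _ => ?_, ?_, ?_⟩
  · rw [div_le_one hp0]
    exact (rH_single_le h p hp hp2).trans h2p
  · rw [← Finset.sum_div]
    apply div_le_div_of_nonneg_right _ hp0.le
    refine (Finset.sum_le_card_nsmul H _ 2 (fun h _ => rH_single_le h p hp hp2)).trans ?_
    rw [nsmul_eq_mul]
    linarith
  · rw [div_le_div_iff₀ hp0 (by norm_num)]
    have : ((4 * H.card + 2 : ℕ) : ℝ) ≤ p := by exact_mod_cast hbig.le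
    push_cast at this
    linarith

open Classical in
theorem factor_up (hp : p.Prime) (hbig : 4 * H.card + 2 < p) : 1 - (rH H p : ℝ) / p ≤
      (∏ h ∈ H, (1 - (rH {h} p : ℝ) / p)) *
        (if Cl H p then 1 + ((4 * H.card : ℕ) : ℝ) / p else 1) := by
  have hp0 : (0 : ℝ) < p := by exact_mod_cast hp.pos
  obtain ⟨b1, b2, b3, b4⟩ := base H p hp hbig
  have h1 := prod_one_sub_ge H (fun h => (rH {h} p : ℝ) / p) b1 b2
  by_cases h : Cl H p
  · rw [if_pos h]
    have h2 : 1 - (rH H p : ℝ) / p ≤ 1 := by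
      have : (0 : ℝ) ≤ (rH H p : ℝ) / p := by positivity
      linarith
    refine h2.trans ?_
    obtain ⟨t, ht⟩ : ∃ t : ℝ, t = 2 * (H.card : ℝ) / p := ⟨_, rfl⟩
    rw [← ht] at b3 b4
    have ht0 : 0 ≤ t := by rw [ht]; positivity
    have h3 : ((4 * H.card : ℕ) : ℝ) / p = 2 * t := by
      rw [ht]
      push_cast
      ring
    rw [h3]
    calc (1 : ℝ) ≤ (1 - t) * (1 + 2 * t) := by nlinarith
      _ ≤ _ := mul_le_mul_of_nonneg_right (by linarith) (by linarith)
  · rw [if_neg h, mul_one, rH_eq H p h]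
    refine le_trans (le_of_eq ?_) h1
    push_cast
    rw [Finset.sum_div]

theorem factor_lo (hp : p.Prime) (hbig : 4 * H.card + 2 < p) :
      (∏ h ∈ H, (1 - (rH {h} p : ℝ) / p)) * (1 - 4 * (H.card : ℝ) ^ 2 / (p : ℝ) ^ 2) ≤
        1 - (rH H p : ℝ) / p := by
  have hp0 : (0 : ℝ) < p := by exact_mod_cast hp.pos
  obtain ⟨b1, b2, b3, b4⟩ := base H p hp hbig
  have h1 := prod_one_sub_le H (fun h => (rH {h} p : ℝ) / p) b1 b2
  have h2 : (rH H p : ℝ) / p ≤ ∑ h ∈ H, (rH {h} p : ℝ) / p := by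
    rw [← Finset.sum_div]
    apply div_le_div_of_nonneg_right _ hp0.le
    exact_mod_cast rH_le H p
  have h0 : 0 ≤ ∏ h ∈ H, (1 - (rH {h} p : ℝ) / p) :=
    Finset.prod_nonneg fun h hh => by linarith [b2 h hh]
  obtain ⟨s, hs⟩ : ∃ s : ℝ, s = ∑ h ∈ H, (rH {h} p : ℝ) / p := ⟨_, rfl⟩
  have hs0 : 0 ≤ s := by rw [hs]; exact Finset.sum_nonneg b1
  rw [← hs] at h1 h2 b3
  have h3 : s ^ 2 ≤ 4 * (H.card : ℝ) ^ 2 / (p : ℝ) ^ 2 := by
    calc s ^ 2 ≤ (2 * (H.card : ℝ) / p) ^ 2 := pow_le_pow_left₀ hs0 b3 2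
      _ = _ := by rw [div_pow]; ring
  calc (∏ h ∈ H, (1 - (rH {h} p : ℝ) / p)) * (1 - 4 * (H.card : ℝ) ^ 2 / (p : ℝ) ^ 2) ≤
      (∏ h ∈ H, (1 - (rH {h} p : ℝ) / p)) * (1 - s ^ 2) :=
        mul_le_mul_of_nonneg_left (by linarith) h0
    _ ≤ (1 - s + s ^ 2 / 2) * (1 - s ^ 2) :=
        mul_le_mul_of_nonneg_right h1 (by nlinarith)
    _ ≤ 1 - s := by nlinarith [mul_nonneg (sq_nonneg s) (sq_nonneg (1 - s))]
    _ ≤ _ := by linarith

end one

theorem one_sub_nonneg (H : Finset ℕ) (p : ℕ) (hp : p.Prime) : 0 ≤ 1 - (rH H p : ℝ) / p := by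
  have hp0 : (0 : ℝ) < p := by exact_mod_cast hp.pos
  rw [sub_nonneg, div_le_one hp0]
  have : rH H p ≤ p := by
    unfold rH
    exact (card_filter_le _ _).trans (by rw [card_range])
  exact_mod_cast this

theorem prs_card (H : Finset ℕ) : (prs H).card ≤ H.card ^ 2 := by
  unfold prs
  refine (card_filter_le _ _).trans ?_
  rw [card_product, sq]

theorem Dd_ge (K w t : ℕ) : 1 ≤ Dd K w t := by
  unfold Dd
  apply Finset.one_le_prod
  intro p _
  have : 0 ≤ (K : ℝ) / p := by positivity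
  linarith

theorem Dd_pow (K M w t : ℕ) : Dd K w t ^ M ≤ Dd ((1 + K) ^ M - 1) w t := by
  unfold Dd
  rw [← Finset.prod_pow]
  apply Finset.prod_le_prod
  · intro p _
    positivity
  · intro p hp
    rw [mem_filter] at hp
    have hp1 : (1 : ℝ) ≤ p := by exact_mod_cast (Nat.prime_of_mem_primeFactors hp.1).one_lt.le
    have h := pow_factor K M (1 / (p : ℝ)) (by positivity) (by
      rw [div_le_one (by linarith)]
      exact hp1)
    rw [mul_one_div, mul_one_div] at h
    exact h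

/-- the product of the factors of the elements -/
theorem main_prod (H : Finset ℕ) (w y : ℕ) (hw : 2 ≤ w) :
    ∏ p ∈ (pr y).filter (fun p => w < p), ∏ h ∈ H, (1 - (rH {h} p : ℝ) / p) =
      V1t w y ^ H.card * ∏ h ∈ H, Ff w y h := by
  have h1 : ∏ p ∈ (pr y).filter (fun p => w < p), ∏ h ∈ H, (1 - (rH {h} p : ℝ) / p) =
      ∏ p ∈ (pr y).filter (fun p => w < p), ((1 - 1 / (p : ℝ)) ^ H.card *
        ∏ h ∈ H, (1 - (leg h p : ℝ) / ((p : ℝ) - 1))) := by
    apply Finset.prod_congr rfl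
    intro p hp
    rw [mem_filter, mem_pr] at hp
    rw [Finset.prod_congr rfl fun h _ => fac h p hp.1.2 (by omega), Finset.prod_mul_distrib,
      Finset.prod_const]
  rw [h1, Finset.prod_mul_distrib, Finset.prod_pow, Finset.prod_comm]
  rfl

theorem t_TAIL : S_TAIL := by
  classical
  intro H w y hbig
  have hw : 2 ≤ w := by omega
  have hmain := main_prod H w y hw
  have hnn : 0 ≤ V1t w y ^ H.card * ∏ h ∈ H, Ff w y h := by
    rw [← hmain]
    apply Finset.prod_nonneg
    intro p hp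
    rw [mem_filter, mem_pr] at hp
    exact Finset.prod_nonneg fun h _ => one_sub_nonneg {h} p hp.1.2
  constructor
  · have h1 : ∏ p ∈ (pr y).filter (fun p => w < p),
        ((∏ h ∈ H, (1 - (rH {h} p : ℝ) / p)) * (1 - 4 * (H.card : ℝ) ^ 2 / (p : ℝ) ^ 2)) ≤
        VT H w y := by
      unfold VT
      apply Finset.prod_le_prod
      · intro p hp
        rw [mem_filter, mem_pr] at hp
        apply mul_nonneg (Finset.prod_nonneg fun h _ => one_sub_nonneg {h} p hp.1.2)
        have hp0 : (0 : ℝ) < p := by exact_mod_cast hp.1.2.pos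
        rw [sub_nonneg, div_le_one (by positivity)]
        have h3 : (2 * (H.card : ℝ)) ^ 2 ≤ (p : ℝ) ^ 2 := by
          apply pow_le_pow_left₀ (by positivity)
          have : 2 * H.card ≤ p := by omega
          exact_mod_cast this
        linarith
      · intro p hp
        rw [mem_filter, mem_pr] at hp
        exact factor_lo H p hp.1.2 (by omega)
    refine le_trans ?_ h1
    rw [Finset.prod_mul_distrib, hmain]
    apply mul_le_mul_of_nonneg_left _ hnn
    refine le_trans ?_ (prod_one_sub_ge _ _ (fun p _ => by positivity) ?_)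
    · have h2 := sum_inv_sq w y (by omega)
      have h3 : ∑ p ∈ (pr y).filter (fun p => w < p), 4 * (H.card : ℝ) ^ 2 / (p : ℝ) ^ 2 ≤
          4 * (H.card : ℝ) ^ 2 * (1 / w) := by
        calc ∑ p ∈ (pr y).filter (fun p => w < p), 4 * (H.card : ℝ) ^ 2 / (p : ℝ) ^ 2 ≤
            ∑ p ∈ (Icc 1 y).filter (fun n => w < n), 4 * (H.card : ℝ) ^ 2 / (p : ℝ) ^ 2 := by
              apply Finset.sum_le_sum_of_subset_of_nonneg
              · intro p hp
                rw [mem_filter, mem_pr] at hp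
                rw [mem_filter, mem_Icc]
                exact ⟨⟨hp.1.2.one_lt.le, hp.1.1⟩, hp.2⟩
              · intros; positivity
          _ = 4 * (H.card : ℝ) ^ 2 * ∑ p ∈ (Icc 1 y).filter (fun n => w < n), 1 / (p : ℝ) ^ 2 := by
              rw [Finset.mul_sum]
              apply Finset.sum_congr rfl
              intros
              ring
          _ ≤ _ := by gcongr
      have h4 : 4 * (H.card : ℝ) ^ 2 * (1 / w) = 4 * (H.card : ℝ) ^ 2 / w := by ring
      linarith
    · intro p hp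
      rw [mem_filter, mem_pr] at hp
      have hp0 : (0 : ℝ) < p := by exact_mod_cast hp.1.2.pos
      rw [div_le_one (by positivity)]
      have h3 : (2 * (H.card : ℝ)) ^ 2 ≤ (p : ℝ) ^ 2 := by
        apply pow_le_pow_left₀ (by positivity)
        have : 2 * H.card ≤ p := by omega
        exact_mod_cast this
      linarith
  · obtain ⟨K, hK⟩ : ∃ K, K = 4 * H.card := ⟨_, rfl⟩
    have h1 : VT H w y ≤ ∏ p ∈ (pr y).filter (fun p => w < p),
        ((∏ h ∈ H, (1 - (rH {h} p : ℝ) / p)) * (if Cl H p then 1 + (K : ℝ) / p else 1)) := by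
      unfold VT
      apply Finset.prod_le_prod
      · intro p hp
        rw [mem_filter, mem_pr] at hp
        exact one_sub_nonneg H p hp.1.2
      · intro p hp
        rw [mem_filter, mem_pr] at hp
        have h2 := factor_up H p hp.1.2 (by omega)
        rw [hK]
        exact h2
    have h2 : ∏ p ∈ (pr y).filter (fun p => w < p), (if Cl H p then 1 + (K : ℝ) / p else 1) ≤
        ∏ x ∈ prs H, Dd K w (x.2 - x.1) := by
      have e : ∏ p ∈ (pr y).filter (fun p => w < p),
          ∏ x ∈ prs H, (if p ∣ x.2 - x.1 then 1 + (K : ℝ) / p else 1) ≤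
          ∏ x ∈ prs H, Dd K w (x.2 - x.1) := by
        rw [Finset.prod_comm]
        apply Finset.prod_le_prod
        · intro x _
          apply Finset.prod_nonneg
          intro p _
          split_ifs <;> positivity
        · intro x hx
          unfold prs at hx
          rw [mem_filter] at hx
          rw [← Finset.prod_filter]
          unfold Dd
          apply Finset.prod_le_prod_of_subset_of_one_le
          · intro p hp
            rw [mem_filter, mem_filter, mem_pr] at hp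
            rw [mem_filter, Nat.mem_primeFactors]
            exact ⟨⟨hp.1.1.2, hp.2, by omega⟩, hp.1.2⟩
          · intro p _
            positivity
          · intro p _ _
            have : 0 ≤ (K : ℝ) / p := by positivity
            linarith
      refine le_trans ?_ e
      apply Finset.prod_le_prod
      · intro p _
        split_ifs <;> positivity
      · intro p _
        have hge : ∀ x ∈ prs H, (1 : ℝ) ≤ (if p ∣ x.2 - x.1 then 1 + (K : ℝ) / p else 1) := by
          intro x _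
          have : 0 ≤ (K : ℝ) / p := by positivity
          split_ifs <;> linarith
        split_ifs with h
        · obtain ⟨a, ha, b, hb, hab, hco⟩ := h
          have hmem : (a, b) ∈ prs H := by
            unfold prs
            rw [mem_filter, mem_product]
            exact ⟨⟨ha, hb⟩, hab⟩
          have h3 := single_le_prod_one (prs H)
            (fun x => if p ∣ x.2 - x.1 then 1 + (K : ℝ) / p else 1) hge (a, b) hmem
          simp only [if_pos hco] at h3
          exact h3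
        · exact Finset.one_le_prod hge
    have h3 : ∏ x ∈ prs H, Dd K w (x.2 - x.1) - 1 ≤
        ∑ x ∈ prs H, (Dd ((1 + K) ^ (H.card ^ 2) - 1) w (x.2 - x.1) - 1) := by
      refine (prod_sub_one_le (prs H) (fun x => Dd K w (x.2 - x.1))
        (fun x _ => Dd_ge K w _) (H.card ^ 2) (prs_card H)).trans ?_
      apply Finset.sum_le_sum
      intro x _
      have := Dd_pow K (H.card ^ 2) w (x.2 - x.1)
      linarith
    rw [← hK]
    refine h1.trans ?_
    rw [Finset.prod_mul_distrib, hmain]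
    apply mul_le_mul_of_nonneg_left _ hnn
    linarith

end Pool.Agent.Y420.SQ
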