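import Pool.Agent.Y420.SQ.Tail
import Pool.Agent.Y862.SQ.Stm2

/-! Job SQ2-TAIL for helper862: the tail of the singular series of a set of pairs. -/

set_option autoImplicit false

namespace Pool.Agent.Y420.SQ

open Finset Pool.Agent.Y862.SQ

/-- the number of the classes of one element -/
theorem rP_single (g : ℕ × ℤ) (p : ℕ) (hp : p.Prime) (hp2 : p ≠ 2) :
    (rP {g} p : ℤ) = lez g.2 p + 1 := by
  have : Fact p.Prime := ⟨hp⟩
  have h1 := legendreSym.card_sqrts p hp2 (-g.2)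
  unfold lez
  rw [← jacobiSym.legendreSym.to_jacobiSym, ← h1]
  congr 1
  unfold rP
  apply Finset.card_nbij' (fun r : ℕ => (r : ZMod p) + (g.1 : ZMod p))
    (fun x : ZMod p => (x - (g.1 : ZMod p)).val)
  · intro r hr
    rw [mem_coe, mem_filter] at hr
    obtain ⟨_, h', hh', hd⟩ := hr
    rw [mem_singleton] at hh'
    rw [mem_coe, Set.mem_toFinset]
    show ((r : ZMod p) + (g.1 : ZMod p)) ^ 2 = ((-g.2 : ℤ) : ZMod p)
    rw [hh', ← ZMod.intCast_zmod_eq_zero_iff_dvd] at hd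
    push_cast at hd ⊢
    exact eq_neg_of_add_eq_zero_left hd
  · intro x hx
    rw [mem_coe, Set.mem_toFinset] at hx
    have hx' : x ^ 2 = ((-g.2 : ℤ) : ZMod p) := hx
    rw [mem_coe, mem_filter, mem_range]
    refine ⟨ZMod.val_lt _, g, mem_singleton_self g, ?_⟩
    rw [← ZMod.intCast_zmod_eq_zero_iff_dvd]
    push_cast
    rw [ZMod.natCast_val, ZMod.cast_id', id, sub_add_cancel, hx']
    push_cast
    ring
  · intro r hr
    rw [mem_coe, mem_filter, mem_range] at hr
    show ((r : ZMod p) + (g.1 : ZMod p) - (g.1 : ZMod p)).val = r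
    rw [add_sub_cancel_right]
    exact ZMod.val_cast_of_lt hr.1
  · intro x _
    show (((x - (g.1 : ZMod p)).val : ℕ) : ZMod p) + (g.1 : ZMod p) = x
    rw [ZMod.natCast_val, ZMod.cast_id', id, sub_add_cancel]

/-- a collision -/
def ClZ (H : Finset (ℕ × ℤ)) (p : ℕ) : Prop := ∃ g ∈ H, ∃ g' ∈ H, g ≠ g' ∧ (p : ℤ) ∣ Rr g g'

theorem rP_biUnion (H : Finset (ℕ × ℤ)) (p : ℕ) :
    (range p).filter (fun r : ℕ => ∃ g ∈ H, (p : ℤ) ∣ ((r : ℤ) + g.1) ^ 2 + g.2) =
      H.biUnion (fun h => (range p).filter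
        (fun r : ℕ => ∃ g ∈ ({h} : Finset (ℕ × ℤ)), (p : ℤ) ∣ ((r : ℤ) + g.1) ^ 2 + g.2)) := by
  ext r
  simp only [mem_filter, mem_biUnion, mem_range, mem_singleton, exists_eq_left]
  constructor
  · rintro ⟨hr1, h, hh, hq⟩
    exact ⟨h, hh, hr1, hq⟩
  · rintro ⟨h, hh, hr1, hq⟩
    exact ⟨hr1, h, hh, hq⟩

theorem rP_le (H : Finset (ℕ × ℤ)) (p : ℕ) : rP H p ≤ ∑ h ∈ H, rP {h} p := by
  unfold rP
  rw [rP_biUnion]
  exact card_biUnion_le

theorem dvd_Rr (p r : ℤ) (g g' : ℕ × ℤ) (h1 : p ∣ (r + g.1) ^ 2 + g.2)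
    (h2 : p ∣ (r + g'.1) ^ 2 + g'.2) : p ∣ Rr g g' := by
  have e : Rr g g' = (((r + g'.1) ^ 2 + g'.2) - ((r + g.1) ^ 2 + g.2)) *
      ((((r + g'.1) ^ 2 + g'.2) - ((r + g.1) ^ 2 + g.2)) - 4 * ((g'.1 : ℤ) - g.1) * (r + g.1)) +
      ((r + g.1) ^ 2 + g.2) * (4 * ((g'.1 : ℤ) - g.1) ^ 2) := by
    unfold Rr
    ring
  rw [e]
  exact dvd_add (Dvd.dvd.mul_right (dvd_sub h2 h1) _) (Dvd.dvd.mul_right h1 _)

theorem rP_eq (H : Finset (ℕ × ℤ)) (p : ℕ) (h : ¬ ClZ H p) : rP H p = ∑ h ∈ H, rP {h} p := by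
  unfold rP
  rw [rP_biUnion]
  apply card_biUnion
  intro a ha b hb hab
  rw [Function.onFun, Finset.disjoint_left]
  intro r hr hr'
  simp only [mem_filter, mem_range, mem_singleton, exists_eq_left] at hr hr'
  exact h ⟨a, ha, b, hb, hab, dvd_Rr p r a b hr.2 hr'.2⟩

/-- the factor of one element -/
theorem facZ (g : ℕ × ℤ) (p : ℕ) (hp : p.Prime) (hp2 : p ≠ 2) :
    1 - (rP {g} p : ℝ) / p = (1 - 1 / (p : ℝ)) * (1 - (lez g.2 p : ℝ) / ((p : ℝ) - 1)) := by
  have h1 : (rP {g} p : ℝ) = (lez g.2 p : ℝ) + 1 := by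
    have := rP_single g p hp hp2
    exact_mod_cast this
  have hp0 : (p : ℝ) ≠ 0 := by exact_mod_cast hp.ne_zero
  have hp1 : (p : ℝ) - 1 ≠ 0 := by
    have : (1 : ℝ) < p := by exact_mod_cast hp.one_lt
    linarith
  rw [h1]
  field_simp
  ring

theorem rP_single_le (g : ℕ × ℤ) (p : ℕ) (hp : p.Prime) (hp2 : p ≠ 2) : (rP {g} p : ℝ) ≤ 2 := by
  have h1 := rP_single g p hp hp2
  have h2 : lez g.2 p ≤ 1 := by
    unfold lez
    rcases jacobiSym.trichotomy (-g.2) p with h | h | h <;> rw [h] <;> norm_num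
  have h3 : (rP {g} p : ℤ) ≤ 2 := by omega
  exact_mod_cast h3

section one

variable (H : Finset (ℕ × ℤ)) (p : ℕ)

theorem baseZ (hp : p.Prime) (hbig : 4 * H.card + 2 < p) :
    (∀ h ∈ H, 0 ≤ (rP {h} p : ℝ) / p) ∧ (∀ h ∈ H, (rP {h} p : ℝ) / p ≤ 1) ∧
    ∑ h ∈ H, (rP {h} p : ℝ) / p ≤ 2 * (H.card : ℝ) / p ∧ 2 * (H.card : ℝ) / p ≤ 1 / 2 := by
  have hp0 : (0 : ℝ) < p := by exact_mod_cast hp.pos
  have hp2 : p ≠ 2 := by omega
  have h2p : (2 : ℝ) ≤ p := by exact_mod_cast hp.two_le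
  refine ⟨fun h _ => by positivity, fun h _ => ?_, ?_, ?_⟩
  · rw [div_le_one hp0]
    exact (rP_single_le h p hp hp2).trans h2p
  · rw [← Finset.sum_div]
    apply div_le_div_of_nonneg_right _ hp0.le
    refine (Finset.sum_le_card_nsmul H _ 2 (fun h _ => rP_single_le h p hp hp2)).trans ?_
    rw [nsmul_eq_mul]
    linarith
  · rw [div_le_div_iff₀ hp0 (by norm_num)]
    have : ((4 * H.card + 2 : ℕ) : ℝ) ≤ p := by exact_mod_cast hbig.le
    push_cast at this
    linarith

open Classical in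
theorem factor_upZ (hp : p.Prime) (hbig : 4 * H.card + 2 < p) : 1 - (rP H p : ℝ) / p ≤
      (∏ h ∈ H, (1 - (rP {h} p : ℝ) / p)) *
        (if ClZ H p then 1 + ((4 * H.card : ℕ) : ℝ) / p else 1) := by
  have hp0 : (0 : ℝ) < p := by exact_mod_cast hp.pos
  obtain ⟨b1, b2, b3, b4⟩ := baseZ H p hp hbig
  have h1 := prod_one_sub_ge H (fun h => (rP {h} p : ℝ) / p) b1 b2
  by_cases h : ClZ H p
  · rw [if_pos h]
    have h2 : 1 - (rP H p : ℝ) / p ≤ 1 := by
      have : (0 : ℝ) ≤ (rP H p : ℝ) / p := by positivity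
      linarith
    refine h2.trans ?_
    obtain ⟨t, ht⟩ : ∃ t : ℝ, t = 2 * (H.card : ℝ) / p := ⟨_, rfl⟩
    rw [← ht] at b3 b4
    have ht0 : 0 ≤ t := by rw [ht]; positivity
    have h3 : ((4 * H.card : ℕ) : ℝ) / p = 2 * t := by
      rw [ht]
      push_cast
      ring
    rw [h3]
    calc (1 : ℝ) ≤ (1 - t) * (1 + 2 * t) := by nlinarith
      _ ≤ _ := mul_le_mul_of_nonneg_right (by linarith) (by linarith)
  · rw [if_neg h, mul_one, rP_eq H p h]
    refine le_trans (le_of_eq ?_) h1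
    push_cast
    rw [Finset.sum_div]

theorem factor_loZ (hp : p.Prime) (hbig : 4 * H.card + 2 < p) :
      (∏ h ∈ H, (1 - (rP {h} p : ℝ) / p)) * (1 - 4 * (H.card : ℝ) ^ 2 / (p : ℝ) ^ 2) ≤
        1 - (rP H p : ℝ) / p := by
  have hp0 : (0 : ℝ) < p := by exact_mod_cast hp.pos
  obtain ⟨b1, b2, b3, b4⟩ := baseZ H p hp hbig
  have h1 := prod_one_sub_le H (fun h => (rP {h} p : ℝ) / p) b1 b2
  have h2 : (rP H p : ℝ) / p ≤ ∑ h ∈ H, (rP {h} p : ℝ) / p := by
    rw [← Finset.sum_div]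
    apply div_le_div_of_nonneg_right _ hp0.le
    exact_mod_cast rP_le H p
  have h0 : 0 ≤ ∏ h ∈ H, (1 - (rP {h} p : ℝ) / p) :=
    Finset.prod_nonneg fun h hh => by linarith [b2 h hh]
  obtain ⟨s, hs⟩ : ∃ s : ℝ, s = ∑ h ∈ H, (rP {h} p : ℝ) / p := ⟨_, rfl⟩
  have hs0 : 0 ≤ s := by rw [hs]; exact Finset.sum_nonneg b1
  rw [← hs] at h1 h2 b3
  have h3 : s ^ 2 ≤ 4 * (H.card : ℝ) ^ 2 / (p : ℝ) ^ 2 := by
    calc s ^ 2 ≤ (2 * (H.card : ℝ) / p) ^ 2 := pow_le_pow_left₀ hs0 b3 2
      _ = _ := by rw [div_pow]; ring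
  calc (∏ h ∈ H, (1 - (rP {h} p : ℝ) / p)) * (1 - 4 * (H.card : ℝ) ^ 2 / (p : ℝ) ^ 2) ≤
      (∏ h ∈ H, (1 - (rP {h} p : ℝ) / p)) * (1 - s ^ 2) :=
        mul_le_mul_of_nonneg_left (by linarith) h0
    _ ≤ (1 - s + s ^ 2 / 2) * (1 - s ^ 2) :=
        mul_le_mul_of_nonneg_right h1 (by nlinarith)
    _ ≤ 1 - s := by nlinarith [mul_nonneg (sq_nonneg s) (sq_nonneg (1 - s))]
    _ ≤ _ := by linarith

end one

theorem one_sub_nonnegZ (H : Finset (ℕ × ℤ)) (p : ℕ) (hp : p.Prime) :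
    0 ≤ 1 - (rP H p : ℝ) / p := by
  have hp0 : (0 : ℝ) < p := by exact_mod_cast hp.pos
  rw [sub_nonneg, div_le_one hp0]
  have : rP H p ≤ p := by
    unfold rP
    exact (card_filter_le _ _).trans (by rw [card_range])
  exact_mod_cast this

theorem off_card (H : Finset (ℕ × ℤ)) : H.offDiag.card ≤ H.card ^ 2 := by
  rw [offDiag_card, sq]
  omega

theorem DR_ge (K w : ℕ) (g g' : ℕ × ℤ) : 1 ≤ DR K w g g' := by
  unfold DR
  apply Finset.one_le_prod
  intro p _
  have : 0 ≤ (K : ℝ) / p := by positivity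
  linarith

theorem DR_pow (K M w : ℕ) (g g' : ℕ × ℤ) : DR K w g g' ^ M ≤ DR ((1 + K) ^ M - 1) w g g' := by
  unfold DR
  rw [← Finset.prod_pow]
  apply Finset.prod_le_prod
  · intro p _
    positivity
  · intro p hp
    rw [mem_filter] at hp
    have hp1 : (1 : ℝ) ≤ p := by exact_mod_cast (Nat.prime_of_mem_primeFactors hp.1).one_lt.le
    have h := pow_factor K M (1 / (p : ℝ)) (by positivity) (by
      rw [div_le_one (by linarith)]
      exact hp1)
    rw [mul_one_div, mul_one_div] at h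
    exact h

/-- the product of the factors of the elements -/
theorem main_prodZ (H : Finset (ℕ × ℤ)) (w y : ℕ) (hw : 2 ≤ w) :
    ∏ p ∈ (pr y).filter (fun p => w < p), ∏ h ∈ H, (1 - (rP {h} p : ℝ) / p) =
      V1t w y ^ H.card * ∏ h ∈ H, Fz w y h.2 := by
  have h1 : ∏ p ∈ (pr y).filter (fun p => w < p), ∏ h ∈ H, (1 - (rP {h} p : ℝ) / p) =
      ∏ p ∈ (pr y).filter (fun p => w < p), ((1 - 1 / (p : ℝ)) ^ H.card *
        ∏ h ∈ H, (1 - (lez h.2 p : ℝ) / ((p : ℝ) - 1))) := by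
    apply Finset.prod_congr rfl
    intro p hp
    rw [mem_filter, mem_pr] at hp
    rw [Finset.prod_congr rfl fun h _ => facZ h p hp.1.2 (by omega), Finset.prod_mul_distrib,
      Finset.prod_const]
  rw [h1, Finset.prod_mul_distrib, Finset.prod_pow, Finset.prod_comm]
  rfl

theorem t_TAILZ : S_TAILZ := by
  classical
  intro H w y hbig hR
  have hw : 2 ≤ w := by omega
  have hmain := main_prodZ H w y hw
  have hnn : 0 ≤ V1t w y ^ H.card * ∏ h ∈ H, Fz w y h.2 := by
    rw [← hmain]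
    apply Finset.prod_nonneg
    intro p hp
    rw [mem_filter, mem_pr] at hp
    exact Finset.prod_nonneg fun h _ => one_sub_nonnegZ {h} p hp.1.2
  constructor
  · have h1 : ∏ p ∈ (pr y).filter (fun p => w < p),
        ((∏ h ∈ H, (1 - (rP {h} p : ℝ) / p)) * (1 - 4 * (H.card : ℝ) ^ 2 / (p : ℝ) ^ 2)) ≤
        VPT H w y := by
      unfold VPT
      apply Finset.prod_le_prod
      · intro p hp
        rw [mem_filter, mem_pr] at hp
        apply mul_nonneg (Finset.prod_nonneg fun h _ => one_sub_nonnegZ {h} p hp.1.2)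
        have hp0 : (0 : ℝ) < p := by exact_mod_cast hp.1.2.pos
        rw [sub_nonneg, div_le_one (by positivity)]
        have h3 : (2 * (H.card : ℝ)) ^ 2 ≤ (p : ℝ) ^ 2 := by
          apply pow_le_pow_left₀ (by positivity)
          have : 2 * H.card ≤ p := by omega
          exact_mod_cast this
        linarith
      · intro p hp
        rw [mem_filter, mem_pr] at hp
        exact factor_loZ H p hp.1.2 (by omega)
    refine le_trans ?_ h1
    rw [Finset.prod_mul_distrib, hmain]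
    apply mul_le_mul_of_nonneg_left _ hnn
    refine le_trans ?_ (prod_one_sub_ge _ _ (fun p _ => by positivity) ?_)
    · have h2 := sum_inv_sq w y (by omega)
      have h3 : ∑ p ∈ (pr y).filter (fun p => w < p), 4 * (H.card : ℝ) ^ 2 / (p : ℝ) ^ 2 ≤
          4 * (H.card : ℝ) ^ 2 * (1 / w) := by
        calc ∑ p ∈ (pr y).filter (fun p => w < p), 4 * (H.card : ℝ) ^ 2 / (p : ℝ) ^ 2 ≤
            ∑ p ∈ (Icc 1 y).filter (fun n => w < n), 4 * (H.card : ℝ) ^ 2 / (p : ℝ) ^ 2 := by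
              apply Finset.sum_le_sum_of_subset_of_nonneg
              · intro p hp
                rw [mem_filter, mem_pr] at hp
                rw [mem_filter, mem_Icc]
                exact ⟨⟨hp.1.2.one_lt.le, hp.1.1⟩, hp.2⟩
              · intros; positivity
          _ = 4 * (H.card : ℝ) ^ 2 * ∑ p ∈ (Icc 1 y).filter (fun n => w < n), 1 / (p : ℝ) ^ 2 := by
              rw [Finset.mul_sum]
              apply Finset.sum_congr rfl
              intros
              ring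
          _ ≤ _ := by gcongr
      have h4 : 4 * (H.card : ℝ) ^ 2 * (1 / w) = 4 * (H.card : ℝ) ^ 2 / w := by ring
      linarith
    · intro p hp
      rw [mem_filter, mem_pr] at hp
      have hp0 : (0 : ℝ) < p := by exact_mod_cast hp.1.2.pos
      rw [div_le_one (by positivity)]
      have h3 : (2 * (H.card : ℝ)) ^ 2 ≤ (p : ℝ) ^ 2 := by
        apply pow_le_pow_left₀ (by positivity)
        have : 2 * H.card ≤ p := by omega
        exact_mod_cast this
      linarith
  · obtain ⟨K, hK⟩ : ∃ K, K = 4 * H.card := ⟨_, rfl⟩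
    have h1 : VPT H w y ≤ ∏ p ∈ (pr y).filter (fun p => w < p),
        ((∏ h ∈ H, (1 - (rP {h} p : ℝ) / p)) * (if ClZ H p then 1 + (K : ℝ) / p else 1)) := by
      unfold VPT
      apply Finset.prod_le_prod
      · intro p hp
        rw [mem_filter, mem_pr] at hp
        exact one_sub_nonnegZ H p hp.1.2
      · intro p hp
        rw [mem_filter, mem_pr] at hp
        have h2 := factor_upZ H p hp.1.2 (by omega)
        rw [hK]
        exact h2
    have h2 : ∏ p ∈ (pr y).filter (fun p => w < p), (if ClZ H p then 1 + (K : ℝ) / p else 1) ≤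
        ∏ x ∈ H.offDiag, DR K w x.1 x.2 := by
      have e : ∏ p ∈ (pr y).filter (fun p => w < p),
          ∏ x ∈ H.offDiag, (if (p : ℤ) ∣ Rr x.1 x.2 then 1 + (K : ℝ) / p else 1) ≤
          ∏ x ∈ H.offDiag, DR K w x.1 x.2 := by
        rw [Finset.prod_comm]
        apply Finset.prod_le_prod
        · intro x _
          apply Finset.prod_nonneg
          intro p _
          split_ifs <;> positivity
        · intro x hx
          rw [mem_offDiag] at hx
          rw [← Finset.prod_filter]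
          unfold DR
          apply Finset.prod_le_prod_of_subset_of_one_le
          · intro p hp
            rw [mem_filter, mem_filter, mem_pr] at hp
            rw [mem_filter, Nat.mem_primeFactors]
            refine ⟨⟨hp.1.1.2, ?_, ?_⟩, hp.1.2⟩
            · exact Int.natCast_dvd.1 hp.2
            · rw [ne_eq, Int.natAbs_eq_zero]
              exact hR x.1 hx.1 x.2 hx.2.1 hx.2.2
          · intro p _
            positivity
          · intro p _ _
            have : 0 ≤ (K : ℝ) / p := by positivity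
            linarith
      refine le_trans ?_ e
      apply Finset.prod_le_prod
      · intro p _
        split_ifs <;> positivity
      · intro p _
        have hge : ∀ x ∈ H.offDiag,
            (1 : ℝ) ≤ (if (p : ℤ) ∣ Rr x.1 x.2 then 1 + (K : ℝ) / p else 1) := by
          intro x _
          have : 0 ≤ (K : ℝ) / p := by positivity
          split_ifs <;> linarith
        split_ifs with h
        · obtain ⟨a, ha, b, hb, hab, hco⟩ := h
          have hmem : (a, b) ∈ H.offDiag := by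
            rw [mem_offDiag]
            exact ⟨ha, hb, hab⟩
          have h3 := single_le_prod_one H.offDiag
            (fun x => if (p : ℤ) ∣ Rr x.1 x.2 then 1 + (K : ℝ) / p else 1) hge (a, b) hmem
          simp only [if_pos hco] at h3
          exact h3
        · exact Finset.one_le_prod hge
    have h3 : ∏ x ∈ H.offDiag, DR K w x.1 x.2 - 1 ≤
        ∑ x ∈ H.offDiag, (DR ((1 + K) ^ (H.card ^ 2) - 1) w x.1 x.2 - 1) := by
      refine (prod_sub_one_le H.offDiag (fun x => DR K w x.1 x.2)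
        (fun x _ => DR_ge K w _ _) (H.card ^ 2) (off_card H)).trans ?_
      apply Finset.sum_le_sum
      intro x _
      have := DR_pow K (H.card ^ 2) w x.1 x.2
      linarith
    rw [← hK]
    refine h1.trans ?_
    rw [Finset.prod_mul_distrib, hmain]
    apply mul_le_mul_of_nonneg_left _ hnn
    linarith

end Pool.Agent.Y420.SQ
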